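import Pool.Agent.H7.HD.Targets10
import Pool.Agent.H7.HD.All
import Pool.Agent.H3.HD.DM
import Pool.Agent.H3.HD.Iter

/-!
# Module Y2: a definable enumeration of the hereditarily ordinal definable sets of rank below `K`
-/

open Ordinal Cardinal Order Set
open scoped ZFSet
open _root_.HD

universe u

namespace Pool.Agent.H6.HD9.Y2

open Pool.Agent.H17.HD Pool.Agent.H3.HD

/-! ## The sets of rank `a` -/

/-- the codes of the hereditarily ordinal definable sets of rank `a` -/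
def Xa (a : Ordinal.{u}) : Set Ordinal.{u} := {c | HOD (_root_.HD.en c) ∧ (_root_.HD.en c).rank = a}

theorem dz_en2 (i j : ℕ) : DZ.{u} fun v => (v i).IsOrdinal ∧ v j = _root_.HD.en (v i).rank :=
  dz_en.ren fun n => if n = 0 then i else j

theorem rank_eq_iff {y : ZFSet.{u}} {a : Ordinal.{u}} :
    y.rank = a ↔ (∀ z ∈ y, z ∈ V_ a) ∧ y ∉ V_ a := by
  have h1 : (∀ z ∈ y, z ∈ V_ a) ↔ y.rank ≤ a := by
    rw [← ZFSet.subset_vonNeumann]
    exact Iff.rfl
  rw [h1, ZFSet.mem_vonNeumann, not_lt]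
  exact ⟨fun h => ⟨h.le, h.ge⟩, fun h => le_antisymm h.1 h.2⟩

theorem do_X : DO.{u} fun w => w 0 ∈ Xa (w 1) := by
  have h : DZ.{u} fun v => ∃ y, ((v 0).IsOrdinal ∧ y = _root_.HD.en (v 0).rank) ∧ (HOD y ∧
      ∃ A, ((v 1).IsOrdinal ∧ A = V_ (v 1).rank) ∧ (∀ z ∈ y, z ∈ A) ∧ y ∉ A) := by
    refine DZ.ex (R := fun y v => ((v 0).IsOrdinal ∧ y = _root_.HD.en (v 0).rank) ∧ (HOD y ∧
      ∃ A, ((v 1).IsOrdinal ∧ A = V_ (v 1).rank) ∧ (∀ z ∈ y, z ∈ A) ∧ y ∉ A)) ?_
    refine (dz_en2 1 0).and ((DM.dz_hod 0).and ?_)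
    refine DZ.ex (R := fun A v => ((v 2).IsOrdinal ∧ A = V_ (v 2).rank) ∧
      (∀ z ∈ v 0, z ∈ A) ∧ v 0 ∉ A) ?_
    refine (loc_V 3 0).dz.and (DZ.and ?_ (DZ.mem 1 0).not)
    exact DZ.allMem (R := fun z v => z ∈ v 0) 1 (DZ.mem 0 1)
  refine h.do.congr fun w => ?_
  have e0 : (ov w 0).rank = w 0 := rank_toZFSet _
  have e1 : (ov w 1).rank = w 1 := rank_toZFSet _
  constructor
  · rintro ⟨h1, h2⟩
    refine ⟨_, ⟨ZFSet.isOrdinal_toZFSet _, by rw [e0]⟩, h1, _, ⟨ZFSet.isOrdinal_toZFSet _, rfl⟩, ?_⟩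
    rw [e1]
    exact rank_eq_iff.1 h2
  · rintro ⟨y, ⟨-, rfl⟩, h1, A, ⟨-, rfl⟩, h2⟩
    rw [e0] at h1 h2
    rw [e1] at h2
    exact ⟨h1, rank_eq_iff.2 h2⟩

theorem do_nth : DO.{u} fun w => nth (Xa (w 2)) (w 0) (w 1) := by
  have h := All.db.{u} (fun c w => c ∈ Xa (w 0)) do_X
  exact h

/-! ## The numbers -/

variable {K : Cardinal.{u}} {t : Ordinal.{u} → Ordinal.{u} → Ordinal.{u}}

/-- `p` is the number of the set with code `c` -/
def Rp (K : Cardinal.{u}) (t : Ordinal.{u} → Ordinal.{u} → Ordinal.{u}) (p c : Ordinal.{u}) : Prop :=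
  ∃ a < K.ord, ∃ i, p = t a i ∧ nth (Xa a) i c

theorem dr_Rp (ht : DO fun w => w 2 = t (w 0) (w 1)) : DR (Rp K t) := by
  refine DO.exLtc (R := fun a w => ∃ i, w 0 = t a i ∧ nth (Xa a) i (w 1)) K.ord ?_
  refine DO.ex (R := fun i w => w 1 = t (w 0) i ∧ nth (Xa (w 0)) i (w 2)) ?_
  exact (DO.s3 (X := fun a b c => c = t a b) ht 1 0 2).and
    (DO.s3 (X := fun a b c => nth (Xa c) a b) do_nth 0 3 1)

theorem Rp.uniq (hinj : ∀ a b a' b', t a b = t a' b' → a = a' ∧ b = b') {p c c' : Ordinal.{u}}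
    (h : Rp K t p c) (h' : Rp K t p c') : c = c' := by
  obtain ⟨a, -, i, rfl, h1⟩ := h
  obtain ⟨a', -, i', he, h2⟩ := h'
  obtain ⟨rfl, rfl⟩ := hinj _ _ _ _ he
  exact XK.nth_uniq All.vh h1 h2

theorem Rp.inj {p q c : Ordinal.{u}} (h : Rp K t p c) (h' : Rp K t q c) : p = q := by
  obtain ⟨a, -, i, rfl, h1⟩ := h
  obtain ⟨a', -, i', rfl, h2⟩ := h'
  have ea : a = a' := h1.1.2.symm.trans h2.1.2
  subst ea
  have hV := (All.vh.{u} (Xa a)).2.1
  have ei : i = i' := by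
    apply le_antisymm
    · exact not_lt.1 fun hl => lt_irrefl _ ((hV _ _ _ _ h2 h1).1 hl)
    · exact not_lt.1 fun hl => lt_irrefl _ ((hV _ _ _ _ h1 h2).1 hl)
  rw [ei]

open Classical in
/-- the set with number `p` -/
noncomputable def bb (K : Cardinal.{u}) (t : Ordinal.{u} → Ordinal.{u} → Ordinal.{u})
    (p : Ordinal.{u}) : ZFSet.{u} :=
  if h : ∃ c, Rp K t p c then _root_.HD.en (Classical.choose h) else ∅

theorem bb_eq (hinj : ∀ a b a' b', t a b = t a' b' → a = a' ∧ b = b') {p c : Ordinal.{u}}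
    (h : Rp K t p c) : bb K t p = _root_.HD.en c := by
  have hex : ∃ c, Rp K t p c := ⟨c, h⟩
  unfold bb
  rw [dif_pos hex, (Classical.choose_spec hex).uniq hinj h]

/-- the numbers -/
def dm (K : Cardinal.{u}) (t : Ordinal.{u} → Ordinal.{u} → Ordinal.{u}) : Set Ordinal.{u} :=
  {p | ∃ c, Rp K t p c}

theorem few_mono {δ : Ordinal.{u}} {X Y : Set Ordinal.{u}} (h : X ⊆ Y) (hY : Few δ Y) : Few δ X := by
  obtain ⟨τ, hτ, e, he⟩ := hY
  exact ⟨τ, hτ, e, fun x hx => he x (h hx)⟩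

/-- Y2. -/
theorem X (hY1 : T_Y1.{u}) : T_Y2.{u} := by
  intro K hK hK0 hP
  obtain ⟨t, htd, hinj, hlt⟩ := All.pr.{u}
  have hcof : K.ord.cof = K := hK.cof_ord
  have hlim : IsSuccLimit K.ord := Cardinal.isSuccLimit_ord hK.aleph0_le
  have hfew : ∀ a, a < K.ord → ∃ τ < K.ord, (∀ i < τ, ∃ z, nth (Xa a) i z) ∧
      ∀ i z, nth (Xa a) i z → i < τ := by
    intro a ha
    apply XK.idx All.vh
    refine few_mono ?_ (hY1 K hK hK0 hP (succ a) (hlim.succ_lt ha))
    rintro c ⟨h1, h2⟩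
    refine ⟨h1, ?_⟩
    rw [ZFSet.mem_vonNeumann, h2]
    exact lt_succ a
  choose! th hth1 hth2 hth3 using hfew
  -- the function `(a, i) ↦ max a i` in terms of `t a i`
  classical
  let F : Ordinal.{u} → Ordinal.{u} := fun p =>
    if h : ∃ q : Ordinal.{u} × Ordinal.{u}, q.1 < K.ord ∧ q.2 < K.ord ∧ p = t q.1 q.2 then
      (Classical.choose h).1 else 0
  have hF : ∀ a i, a < K.ord → i < K.ord → F (t a i) = a := by
    intro a i ha hi
    have hex : ∃ q : Ordinal.{u} × Ordinal.{u}, q.1 < K.ord ∧ q.2 < K.ord ∧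
        t a i = t q.1 q.2 := ⟨(a, i), ha, hi, rfl⟩
    simp only [F]
    rw [dif_pos hex]
    have h2 := (Classical.choose_spec hex).2.2
    exact (hinj _ _ _ _ h2).1.symm
  have hFlt : ∀ p, F p < K.ord := by
    intro p
    simp only [F]
    split_ifs with h
    · exact (Classical.choose_spec h).1
    · exact hlim.bot_lt
  have hcard : ∀ y, y < K.ord → (succ y).card < K.ord.cof := by
    intro y hy
    rw [hcof]
    exact Cardinal.lt_ord.1 (hlim.succ_lt hy)
  have hB1 : ∀ y, y < K.ord → ∀ a, a < K.ord → ∃ s < K.ord, ∀ i < succ y, t a i ≤ s := by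
    intro y hy a ha
    exact exists_bound (hcard y hy) (fun i => t a i)
      fun i hi => hlt K hK.aleph0_le a ha i (hi.trans (hlim.succ_lt hy))
  choose! s1 hs1 hs1' using hB1
  have hB2 : ∀ y, y < K.ord → ∃ s < K.ord, ∀ a < succ y, s1 y a ≤ s := by
    intro y hy
    exact exists_bound (hcard y hy) (fun a => s1 y a)
      fun a ha => hs1 y hy a (ha.trans (hlim.succ_lt hy))
  choose! s2 hs2 hs2' using hB2
  have hclub := All.ve.{u} K hK hK0 (fun y => max (th y) (max (F y) (s2 y)))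
    (fun y hy => max_lt (hth1 y hy) (max_lt (hFlt y) (hs2 y hy)))
  refine ⟨_, dm K t, bb K t, hclub, ?_, ?_, ?_, ?_⟩
  · rintro p ⟨c, hc⟩ q ⟨d, hd⟩ h
    rw [bb_eq hinj hc, bb_eq hinj hd] at h
    have := en_inj h
    subst this
    exact hc.inj hd
  · intro ξ hξ hC x
    -- closure properties of `ξ`
    have c1 : ∀ a < ξ, th a ≤ ξ := by
      intro a ha
      rcases hC with hC | rfl
      · exact ((le_max_left _ _).trans_lt (hC.2 a ha)).le
      · exact (hth1 a ha).le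
    have c2 : ∀ a < ξ, ∀ i < ξ, t a i < ξ := by
      intro a ha i hi
      rcases hC with hC | rfl
      · have hy : max a i < ξ := max_lt ha hi
        have hyK : max a i < K.ord := hy.trans_le hξ
        have h1 := hC.2 _ hy
        have h2 : s2 (max a i) < ξ := (le_max_right _ _).trans_lt ((le_max_right _ _).trans_lt h1)
        refine lt_of_le_of_lt ?_ h2
        refine (hs1' (max a i) hyK a (ha.trans_le hξ) i (lt_succ_iff.2 (le_max_right _ _))).trans ?_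
        exact hs2' (max a i) hyK a (lt_succ_iff.2 (le_max_left _ _))
      · exact hlt K hK.aleph0_le a ha i hi
    have c3 : ∀ p < ξ, F p < ξ := by
      intro p hp
      rcases hC with hC | rfl
      · exact (le_max_left _ _).trans_lt ((le_max_right _ _).trans_lt (hC.2 p hp))
      · exact hFlt p
    constructor
    · rintro ⟨hx, hxV⟩
      rw [ZFSet.mem_vonNeumann] at hxV
      obtain ⟨c, hc⟩ := en_surj hx.od
      have hcX : c ∈ Xa x.rank := ⟨by rw [hc]; exact hx, by rw [hc]⟩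
      obtain ⟨i, -, hi⟩ := (All.vh.{u} (Xa x.rank)).1 c hcX
      have haK := hxV.trans_le hξ
      have hi2 : i < ξ := (hth3 _ haK i c hi).trans_le (c1 _ hxV)
      have hR : Rp K t (t x.rank i) c := ⟨x.rank, haK, i, rfl, hi⟩
      exact ⟨_, c2 _ hxV i hi2, ⟨c, hR⟩, by rw [bb_eq hinj hR, hc]⟩
    · rintro ⟨p, hp, ⟨c, hR⟩, rfl⟩
      rw [bb_eq hinj hR]
      obtain ⟨a, ha, i, rfl, hi⟩ := hR
      have hiK : i < K.ord := (hth3 a ha i c hi).trans (hth1 a ha)
      refine ⟨hi.1.1, ?_⟩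
      rw [ZFSet.mem_vonNeumann, hi.1.2]
      have := c3 _ hp
      rwa [hF a i ha hiK] at this
  · intro x hx
    have h1 : DO.{u} fun w => _root_.HD.en (w 0) ∈ x := by
      have h2 : DZ.{u} fun v => ∃ y, ((v 0).IsOrdinal ∧ y = _root_.HD.en (v 0).rank) ∧ y ∈ x := by
        refine DZ.od (R := fun x v => ∃ y, ((v 0).IsOrdinal ∧ y = _root_.HD.en (v 0).rank) ∧ y ∈ x)
          hx.od ?_
        refine DZ.ex (R := fun y v => ((v 1).IsOrdinal ∧ y = _root_.HD.en (v 1).rank) ∧ y ∈ v 0) ?_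
        exact (dz_en2 2 0).and (DZ.mem 0 1)
      refine h2.do.congr fun w => ?_
      have e0 : (ov w 0).rank = w 0 := rank_toZFSet _
      constructor
      · intro h
        exact ⟨_, ⟨ZFSet.isOrdinal_toZFSet _, by rw [e0]⟩, h⟩
      · rintro ⟨y, ⟨-, rfl⟩, h⟩
        rwa [e0] at h
    have h3 : DO.{u} fun w => ∃ c, Rp K t (w 0) c ∧ _root_.HD.en c ∈ x := by
      refine DO.ex (R := fun c w => Rp K t (w 0) c ∧ _root_.HD.en c ∈ x) ?_
      exact ((dr_Rp htd).s2 1 0).and h1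
    refine h3.congr fun w => ?_
    constructor
    · rintro ⟨⟨c, hc⟩, h⟩
      rw [bb_eq hinj hc] at h
      exact ⟨c, hc, h⟩
    · rintro ⟨c, hc, h⟩
      exact ⟨⟨c, hc⟩, by rw [bb_eq hinj hc]; exact h⟩
  · intro y hy ξ hξ
    refine ⟨ZFSet.sep (fun z => ∃ p < ξ, p ∈ dm K t ∧ p.toZFSet ∈ y ∧ z = bb K t p) (V_ K.ord),
      ?_, ?_⟩
    rotate_left
    · intro z
      rw [ZFSet.mem_sep]
      refine ⟨fun h => h.2, fun h => ⟨?_, h⟩⟩
      obtain ⟨p, -, ⟨c, hc⟩, -, rfl⟩ := h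
      rw [bb_eq hinj hc]
      obtain ⟨a, ha, i, rfl, hi⟩ := hc
      rw [ZFSet.mem_vonNeumann, hi.1.2]
      exact ha
    · have hmem : ∀ z, z ∈ ZFSet.sep (fun z => ∃ p < ξ, p ∈ dm K t ∧ p.toZFSet ∈ y ∧
          z = bb K t p) (V_ K.ord) ↔ ∃ p < ξ, p.toZFSet ∈ y ∧ ∃ c, Rp K t p c ∧
            z = _root_.HD.en c := by
        intro z
        rw [ZFSet.mem_sep]
        constructor
        · rintro ⟨-, p, hp, ⟨c, hc⟩, h1, h2⟩
          rw [bb_eq hinj hc] at h2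
          exact ⟨p, hp, h1, c, hc, h2⟩
        · rintro ⟨p, hp, h1, c, hc, rfl⟩
          refine ⟨?_, p, hp, ⟨c, hc⟩, h1, (bb_eq hinj hc).symm⟩
          obtain ⟨a, ha, i, rfl, hi⟩ := hc
          rw [ZFSet.mem_vonNeumann, hi.1.2]
          exact ha
      refine hod_iff.2 ⟨?_, ?_⟩
      · obtain ⟨Q, hQ, h⟩ := dr_Rp (K := K) htd
        refine OD.of_mem (P := fun v => ∃ x ∈ ξ.toZFSet, x ∈ y ∧ ∃ c, Q (cons x fun _ => c) ∧
          (c.IsOrdinal ∧ v 0 = _root_.HD.en c.rank)) ?_ fun v => ?_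
        · refine DZ.od (R := fun a v => ∃ x ∈ a, x ∈ y ∧ ∃ c, Q (cons x fun _ => c) ∧
            (c.IsOrdinal ∧ v 0 = _root_.HD.en c.rank)) (OD.ordinal ξ) (DZ.exMem 0 ?_)
          refine DZ.od (R := fun b v => v 0 ∈ b ∧ ∃ c, Q (cons (v 0) fun _ => c) ∧
            (c.IsOrdinal ∧ v 2 = _root_.HD.en c.rank)) hy.od ((DZ.mem 1 0).and (DZ.ex ?_))
          refine DZ.and ?_ (dz_en2 0 4)
          refine (hQ.ren (fun n => if n = 0 then 2 else 0)).congr fun v => ?_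
          have : (cons (v 2) fun _ => v 0) = fun n => v (if n = 0 then 2 else 0) := by
            funext n
            rcases n with _ | n <;> simp
          rw [← this]
        · have e : ∀ a b : Ordinal.{u}, (cons a.toZFSet fun _ => b.toZFSet) =
              ov (cns a fun _ => b) := by
            intro a b
            rw [ov_cns]
            rfl
          rw [hmem]
          constructor
          · rintro ⟨x, hx, hxy, c, hq, hc, he⟩
            obtain ⟨p, hp, rfl⟩ := mem_toZFSet_iff.1 hx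
            have hc' : c = c.rank.toZFSet := hc.toZFSet_rank_eq.symm
            rw [hc', e] at hq
            exact ⟨p, hp, hxy, c.rank, (h (cns p fun _ => c.rank)).2 hq, he⟩
          · rintro ⟨p, hp, hpy, c, hc, he⟩
            refine ⟨_, toZFSet_mem_toZFSet_iff.2 hp, hpy, c.toZFSet, ?_,
              ZFSet.isOrdinal_toZFSet _, by rw [rank_toZFSet]; exact he⟩
            rw [e]
            exact (h (cns p fun _ => c)).1 hc
      · intro z hz
        obtain ⟨p, -, -, c, hc, rfl⟩ := (hmem z).1 hz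
        obtain ⟨a, -, i, rfl, hi⟩ := hc
        exact hi.1.1

end Pool.Agent.H6.HD9.Y2
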